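import Pool.Agent.Helper42.SQ.GDefs2
import Pool.Agent.Helper67.SQ4.Defs5

/-!
# SQ, stage 7 (all points of bounded degree on projective space): definitions
-/

set_option autoImplicit false

namespace Pool.Agent.SQ

open Module

/-- the share of `V ^ m` on which `ω + m c` is at least `m x` -/
noncomputable def pl {k K : Type*} [Field k] [Field K] [Algebra k K] {ω : K → ℝ} (h : RV k ω) (c : ℝ) (V : Submodule k K)
    (m : ℕ) (x : ℝ) : ℝ :=
  (finrank k ↥(V ^ m ⊓ lev h (m * (x - c))) : ℝ) / finrank k ↥(V ^ m)

end Pool.Agent.SQ
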