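import Pool.Agent.Helper21.S7.Defs7

/-!
# SQ, stage 7: the product formula, cosets, values on powers
-/

set_option autoImplicit false

namespace Pool.Agent.SQ

open Module

universe u

section

variable {k K : Type*} [Field k] [Field K] [Algebra k K]

theorem lev_mul21 {ω : K → ℝ} (h : RV k ω) (a b : ℝ) : lev h a * lev h b ≤ lev h (a + b) := by
  rw [Submodule.mul_le]
  intro x hx y hy
  rcases hx with rfl | hx
  · rw [zero_mul]; exact Or.inl rfl
  rcases hy with rfl | hy
  · rw [mul_zero]; exact Or.inl rfl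
  by_cases hx0 : x = 0
  · subst hx0; rw [zero_mul]; exact Or.inl rfl
  by_cases hy0 : y = 0
  · subst hy0; rw [mul_zero]; exact Or.inl rfl
  right
  rw [h.mul x y hx0 hy0]
  exact add_le_add hx hy

theorem lev_anti21 {ω : K → ℝ} (h : RV k ω) {a b : ℝ} (hab : a ≤ b) : lev h b ≤ lev h a := by
  rintro x (hx | hx)
  · exact Or.inl hx
  · exact Or.inr (hab.trans hx)

theorem one_lev21 {ω : K → ℝ} (h : RV k ω) : (1 : Submodule k K) ≤ lev h 0 := by
  rw [Submodule.one_le]
  right
  have := h.alg 1 one_ne_zero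
  rw [map_one] at this
  exact this.ge

theorem lev_pow21 {ω : K → ℝ} (h : RV k ω) {E : Submodule k K} {c : ℝ} (hE : E ≤ lev h c) (m : ℕ) :
    E ^ m ≤ lev h (m * c) := by
  induction m with
  | zero => simpa using one_lev21 h
  | succ m ih =>
    rw [pow_succ]
    refine (mul_le_mul' ih hE).trans ((lev_mul21 h _ _).trans (le_of_eq ?_))
    push_cast
    congr 1
    ring

/-- nonnegative values on the powers -/
theorem nonneg_pow21 {ω : K → ℝ} (h : RV k ω) {V : Submodule k K} {c : ℝ} (ha : ∀ x ∈ V, x ≠ 0 → 0 ≤ ω x + c) (m : ℕ) :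
    ∀ x ∈ V ^ m, x ≠ 0 → 0 ≤ ω x + m * c := by
  intro x hx hx0
  have h1 : V ≤ lev h (-c) := by
    intro y hy
    by_cases hy0 : y = 0
    · exact Or.inl hy0
    · right
      linarith [ha y hy hy0]
  rcases lev_pow21 h h1 m hx with h2 | h2
  · exact absurd h2 hx0
  · linarith

theorem val_prod21 {ω : K → ℝ} (h : RV k ω) {α : Type*} (S : Finset α) (b : α → K) (hb : ∀ a ∈ S, b a ≠ 0) :
    ω (∏ a ∈ S, b a) = ∑ a ∈ S, ω (b a) := by
  classical
  induction S using Finset.induction_on with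
  | empty =>
    rw [Finset.prod_empty, Finset.sum_empty]
    have := h.alg 1 one_ne_zero
    rwa [map_one] at this
  | insert a S ha ih =>
    rw [Finset.prod_insert ha, Finset.sum_insert ha, h.mul _ _ (hb a (Finset.mem_insert_self _ _))
      (Finset.prod_ne_zero_iff.2 fun x hx => hb x (Finset.mem_insert_of_mem hx)),
      ih fun x hx => hb x (Finset.mem_insert_of_mem hx)]

theorem mem_prod21 {α : Type*} (S : Finset α) (E : α → Submodule k K) (z : α → K) (h : ∀ a ∈ S, z a ∈ E a) :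
    ∏ a ∈ S, z a ∈ ∏ a ∈ S, E a := by
  classical
  induction S using Finset.induction_on with
  | empty =>
    rw [Finset.prod_empty, Finset.prod_empty]
    exact Submodule.one_le.1 le_rfl
  | insert a S ha ih =>
    rw [Finset.prod_insert ha, Finset.prod_insert ha]
    exact Submodule.mul_mem_mul (h a (Finset.mem_insert_self _ _)) (ih fun x hx => h x (Finset.mem_insert_of_mem hx))

theorem map_pow21 (τ : K ≃ₐ[k] K) (E : Submodule k K) (m : ℕ) :
    (E ^ m).map τ.toLinearMap = (E.map τ.toLinearMap) ^ m :=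
  Submodule.map_pow E τ.toAlgHom m

end

/-- the cosets -/
theorem coset21 {G : Type*} [Group G] [Fintype G] (Hs : Subgroup G) {r : ℕ} (ρ : Fin r → G)
    (hρ : ∀ g, ∃! j, (ρ j)⁻¹ * g ∈ Hs) (F : G → ℝ) (hF : ∀ j, ∀ h ∈ Hs, F (ρ j * h) = F (ρ j)) :
    ∑ g, F g = Nat.card Hs * ∑ j, F (ρ j) := by
  classical
  have hbij : Function.Bijective fun p : Fin r × Hs => ρ p.1 * (p.2 : G) := by
    constructor
    · rintro ⟨j, h⟩ ⟨j', h'⟩ hjj
      have hjj' : ρ j * (h : G) = ρ j' * (h' : G) := hjj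
      have h1 : (ρ j)⁻¹ * (ρ j * (h : G)) ∈ Hs := by
        rw [inv_mul_cancel_left]
        exact h.2
      have h2 : (ρ j')⁻¹ * (ρ j * (h : G)) ∈ Hs := by
        rw [hjj', inv_mul_cancel_left]
        exact h'.2
      have h3 : j = j' := (hρ _).unique h1 h2
      subst h3
      have h4 : (h : G) = h' := mul_left_cancel hjj'
      rw [Subtype.ext h4]
    · intro g
      obtain ⟨j, hj, -⟩ := hρ g
      exact ⟨(j, ⟨(ρ j)⁻¹ * g, hj⟩), mul_inv_cancel_left _ _⟩
  rw [← Fintype.sum_bijective _ hbij (fun p : Fin r × Hs => F (ρ p.1 * (p.2 : G))) F fun p => rfl, Fintype.sum_prod_type,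
    Finset.mul_sum]
  refine Finset.sum_congr rfl fun j _ => ?_
  rw [Finset.sum_congr rfl fun (h : Hs) _ => hF j h h.2, Finset.sum_const, Finset.card_univ, nsmul_eq_mul,
    Nat.card_eq_fintype_card]

/-- the product formula -/
theorem nrm_le {k K : Type u} [Field k] [CharZero k] [Field K] [Algebra k K] {G : Type*} [Group G] [Fintype G]
    (s : G →* (K ≃ₐ[k] K)) {P : Type*} [Fintype P] (ω : P → K → ℝ) (hω : ∀ v, RV k (ω v)) (c : P → G → ℝ)
    (V : Submodule k K) (ha : ∀ v g, ∀ x ∈ V, x ≠ 0 → 0 ≤ ω v (s g x) + c v g)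
    (hS : ∀ (m : ℕ) (E : Submodule k K), E ≤ (∏ g, V.map (s g).toLinearMap) ^ m → (∀ z ∈ E, ∀ g, s g z = z) →
      ∀ (n : P → ℕ) (z : ∀ v, Fin (n v) → K), (∀ v, LinearIndependent k (z v)) → (∀ v i, z v i ∈ E) →
        ∑ v, ∑ i, (ω v (z v i) + m * ∑ g, c v g) ≤ m * finrank k E) (v : P) (g : G) (m : ℕ) (x : K) (hx : x ∈ V ^ m)
    (hx0 : x ≠ 0) : ω v (s g x) + m * c v g ≤ m := by
  classical
  have hs0 : ∀ g, s g x ≠ 0 := fun g => by simpa using hx0
  obtain ⟨y, hy⟩ : ∃ y, y = ∏ g, s g x := ⟨_, rfl⟩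
  have hy0 : y ≠ 0 := by
    rw [hy]
    exact Finset.prod_ne_zero_iff.2 fun g _ => hs0 g
  have hyE : y ∈ (∏ g, V.map (s g).toLinearMap) ^ m := by
    rw [hy, ← Finset.prod_pow]
    refine mem_prod21 _ _ _ fun g _ => ?_
    rw [← map_pow21]
    exact Submodule.mem_map_of_mem hx
  have hyf : ∀ h, s h y = y := by
    intro h
    rw [hy, map_prod]
    refine Fintype.prod_equiv (Equiv.mulLeft h) _ _ fun g => ?_
    rw [Equiv.coe_mulLeft, map_mul]
    rfl
  have h1 := hS m (Submodule.span k {y}) ((Submodule.span_singleton_le_iff_mem _ _).2 hyE) (by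
    intro z hz g
    obtain ⟨a, rfl⟩ := Submodule.mem_span_singleton.1 hz
    rw [map_smul, hyf]) (fun _ => 1) (fun _ _ => y) (fun v => by
      rw [linearIndependent_unique_iff]
      exact hy0) fun v i => Submodule.mem_span_singleton_self y
  rw [finrank_span_singleton hy0, Nat.cast_one, mul_one] at h1
  have h2 : ∀ v, (∑ _i : Fin 1, (ω v y + m * ∑ g, c v g)) = ∑ g, (ω v (s g x) + m * c v g) := by
    intro v
    rw [Fin.sum_univ_one, hy, val_prod21 (hω v) _ _ fun g _ => hs0 g, Finset.sum_add_distrib, Finset.mul_sum]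
  have h3 : ∀ v g, 0 ≤ ω v (s g x) + m * c v g := fun v g => nonneg_pow21 ((hω v).comp (s g)) (ha v g) m x hx hx0
  rw [Finset.sum_congr rfl fun v _ => h2 v] at h1
  have h4 : ω v (s g x) + m * c v g ≤ ∑ g, (ω v (s g x) + m * c v g) :=
    Finset.single_le_sum (f := fun g => ω v (s g x) + m * c v g) (fun g _ => h3 v g) (Finset.mem_univ g)
  have h5 : ∑ g, (ω v (s g x) + m * c v g) ≤ ∑ v, ∑ g, (ω v (s g x) + m * c v g) :=
    Finset.single_le_sum (f := fun v => ∑ g, (ω v (s g x) + m * c v g)) (fun v _ => Finset.sum_nonneg fun g _ => h3 v g)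
      (Finset.mem_univ v)
  linarith

end Pool.Agent.SQ
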