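import Pool.Agent.Helper21.S7.Defs7
import Pool.Agent.Helper42.SQ.GDefs
import Pool.Agent.Helper42.SQ.GDefs2
import Pool.Agent.Helper67.SQ4.Defs5

/-!
# SQ, stage 7: statements (do not import; copy your statement)
-/

set_option autoImplicit false

namespace Pool.Agent.SQ

open NumberField Filter Module MvPolynomial
open Pool.Agent.Helper64.Vojta (Pl nv sn above)
open Pool.Agent.V2
open Pool.Agent.Chart (fld dg crd val hgt lam)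

universe u

/-! ### BMA -/

/-- Brunn-Minkowski with one `w` for all numbers of factors; `w + 1 ≤ dim V`. -/
theorem bm_all {k K : Type u} [Field k] [CharZero k] [Field K] [Algebra k K] (W : Submodule k K) [FiniteDimensional k W]
    {n : ℕ} (hn : finrank k W = n + 1) : ∃ w C : ℕ, w ≤ n ∧ (∀ m : ℕ, finrank k ↥(W ^ m) ≤ C * (m + 1) ^ w) ∧
      ∀ g : ℕ, 0 < g → ∃ (q : ℕ) (Q : Submodule k K), Q ≤ W ^ q ∧
        ∀ (m : Fin g → ℕ) (A : Fin g → Submodule k K), (∀ i, A i ≤ W ^ m i) → BMg g w Q A := sorry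

/-! ### STAR (uses `bm_all`, `gro_g`) -/

theorem star {k K : Type u} [Field k] [CharZero k] [Field K] [Algebra k K] (V : Submodule k K) [FiniteDimensional k V]
    {n : ℕ} (hn : finrank k V = n + 1) {η : ℝ} (hη : 0 < η) : ∃ a M : ℕ, 0 < a ∧ 0 < M ∧ ∀ (ω : K → ℝ) (h : RV k ω) (c : ℝ),
      (∀ x ∈ V, x ≠ 0 → 0 ≤ ω x + c) → (∀ m : ℕ, ∀ x ∈ V ^ m, x ≠ 0 → ω x + m * c ≤ m) →
        ∀ s l : ℝ, 0 ≤ l → l ≤ 1 → 0 < pl h c V a s →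
          ((1 - l) + l * pl h c V a s ^ (1 / (n : ℝ))) ^ n - η ≤ pl h c V M (l * s - η) := sorry

/-! ### ADP (adapted bases) -/

theorem pl_facts {k K : Type*} [Field k] [Field K] [Algebra k K] {ω : K → ℝ} (h : RV k ω) (c : ℝ) (V : Submodule k K)
    [FiniteDimensional k V] (hV : V ≠ ⊥) (ha : ∀ x ∈ V, x ≠ 0 → 0 ≤ ω x + c) {m : ℕ} (hm : 0 < m) :
    Antitone (pl h c V m) ∧ (∀ x, 0 ≤ pl h c V m x) ∧ (∀ x, pl h c V m x ≤ 1) ∧ (∀ x ≤ 0, pl h c V m x = 1) ∧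
      ∀ X : ℝ, (∀ x ∈ V ^ m, x ≠ 0 → ω x + m * c ≤ m * X) → ∀ x, X < x → pl h c V m x = 0 := sorry

theorem adp {k K : Type*} [Field k] [Field K] [Algebra k K] {ω : K → ℝ} (h : RV k ω) (c : ℝ) (V : Submodule k K)
    [FiniteDimensional k V] (ha : ∀ x ∈ V, x ≠ 0 → 0 ≤ ω x + c) {m : ℕ} (hm : 0 < m) :
    ∃ e : Fin (finrank k ↥(V ^ m)) → K, LinearIndependent k e ∧ (∀ i, e i ∈ V ^ m) ∧
      (∀ N : ℕ, 0 < N → (SN h N (m * c) (V ^ m) : ℝ) ≤ N * ∑ i, (ω (e i) + m * c)) ∧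
      ∀ b : ℝ, 0 ≤ b → ∑ i, min b (ω (e i) / m + c) = finrank k ↥(V ^ m) * ∫ x in (0 : ℝ)..b, pl h c V m x := sorry

/-! ### TENV (uses `ten_g` with one copy, `adp`) -/

theorem tenv {k K : Type u} [Field k] [CharZero k] [Field K] [Algebra k K] {ι : Type*} [Fintype ι] (ω : ι → K → ℝ)
    (hω : ∀ i, RV k (ω i)) (c : ι → ℝ) (V : Submodule k K) [FiniteDimensional k V] {n : ℕ} (hn : finrank k V = n + 1)
    {N : ℕ} (hN : 0 < N) (ha : ∀ i, ∀ x ∈ V, x ≠ 0 → 0 ≤ ω i x + c i)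
    (hb : ∀ i, ∀ m : ℕ, ∀ x ∈ V ^ m, x ≠ 0 → ω i x + m * c i ≤ m)
    (hss : ∀ E ≤ V, (n + 1) * ∑ i, SN (hω i) N (c i) E ≤ (∑ i, SN (hω i) N (c i) V) * finrank k E) {a : ℕ} (ha0 : 0 < a) :
    (∑ i, SN (hω i) N (c i) V : ℝ) / (n + 1) ≤
      N * (∑ i, ∫ x in (0 : ℝ)..1, pl (hω i) (c i) V a x) + ((n + 1) * Fintype.card ι + 1) := sorry

/-! ### END (real analysis) -/

theorem end_real (n : ℕ) {η : ℝ} (hη : 0 ≤ η) (pa pM : ℝ → ℝ) (ha : Antitone pa) (hM : Antitone pM) (ha0 : ∀ x, 0 ≤ pa x)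
    (ha1 : ∀ x, pa x ≤ 1) (hM0 : ∀ x, 0 ≤ pM x) (hM1 : ∀ x, pM x ≤ 1) (hX : ∀ x, 1 < x → pa x = 0)
    (hs : ∀ s l : ℝ, 0 ≤ l → l ≤ 1 → 0 < pa s → ((1 - l) + l * pa s ^ (1 / (n : ℝ))) ^ n - η ≤ pM (l * s - η))
    {t : ℝ} (ht : 0 ≤ t) (ht1 : t ≤ 1) :
    ((n + 1) * ∫ x in (0 : ℝ)..1, pa x) * Eq n t - η * (n + 3) ≤
      ∫ x in (0 : ℝ)..(t * ((n + 1) * ∫ x in (0 : ℝ)..1, pa x)), pM x := sorry

/-! ### MON (real analysis) -/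

theorem cnr_zero' {r : ℕ} : cnr 0 r = 1 := sorry

theorem cnr_pos' {n r : ℕ} (hr : 0 < r) : 0 < cnr n r := sorry

theorem cnr_eq' {n r : ℕ} (hr : 0 < r) : ∃ θ : ℝ, 0 ≤ θ ∧ θ ≤ 1 ∧ r * Eq n θ - (r - 1) * θ = cnr n r := sorry

theorem cnr_anti {m n r : ℕ} (hr : 0 < r) (h : m ≤ n) : (n + 1) * cnr n r ≤ (m + 1) * cnr m r := sorry

theorem cnr_shift {n p r' r : ℕ} (hp : p ≤ n) (hr' : 0 < r') (hr : 2 ≤ r) (h : r' ≤ r) :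
    1 / cnr (n - p) r' + 2 * p ≤ 1 / cnr n r := sorry

/-! ### TALL (uses `thm_m`, `tenv`, `star`, `end_real`, `adp`, MON) -/

/-- the product formula -/
theorem nrm_le {k K : Type u} [Field k] [CharZero k] [Field K] [Algebra k K] {G : Type*} [Group G] [Fintype G]
    (s : G →* (K ≃ₐ[k] K)) {P : Type*} [Fintype P] (ω : P → K → ℝ) (hω : ∀ v, RV k (ω v)) (c : P → G → ℝ)
    (V : Submodule k K) (ha : ∀ v g, ∀ x ∈ V, x ≠ 0 → 0 ≤ ω v (s g x) + c v g)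
    (hS : ∀ (m : ℕ) (E : Submodule k K), E ≤ (∏ g, V.map (s g).toLinearMap) ^ m → (∀ z ∈ E, ∀ g, s g z = z) →
      ∀ (n : P → ℕ) (z : ∀ v, Fin (n v) → K), (∀ v, LinearIndependent k (z v)) → (∀ v i, z v i ∈ E) →
        ∑ v, ∑ i, (ω v (z v i) + m * ∑ g, c v g) ≤ m * finrank k E) (v : P) (g : G) (m : ℕ) (x : K) (hx : x ∈ V ^ m)
    (hx0 : x ≠ 0) : ω v (s g x) + m * c v g ≤ m := sorry

theorem abs_a {k K : Type u} [Field k] [CharZero k] [Field K] [Algebra k K] {G : Type*} [Group G] [Fintype G]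
    (s : G →* (K ≃ₐ[k] K)) {P : Type*} [Fintype P] (ω : P → K → ℝ) (hω : ∀ v, RV k (ω v)) (c : P → G → ℝ)
    (V : Submodule k K) [FiniteDimensional k V] {n : ℕ} (hn : finrank k V = n + 1)
    (ha : ∀ v g, ∀ x ∈ V, x ≠ 0 → 0 ≤ ω v (s g x) + c v g)
    (hS : ∀ (m : ℕ) (E : Submodule k K), E ≤ (∏ g, V.map (s g).toLinearMap) ^ m → (∀ z ∈ E, ∀ g, s g z = z) →
      ∀ (n : P → ℕ) (z : ∀ v, Fin (n v) → K), (∀ v, LinearIndependent k (z v)) → (∀ v i, z v i ∈ E) →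
        ∑ v, ∑ i, (ω v (z v i) + m * ∑ g, c v g) ≤ m * finrank k E)
    (Hs : Subgroup G) (hH : ∀ h ∈ Hs, ∀ x ∈ V, s h x = x) (hcH : ∀ v g, ∀ h ∈ Hs, c v (g * h) = c v g)
    {r : ℕ} (hr : 0 < r) (ρ : Fin r → G) (hρ : ∀ g, ∃! j, (ρ j)⁻¹ * g ∈ Hs) :
    ∃ C : ℝ, ∀ N : ℕ, 0 < N → (∑ v, ∑ g, (SN ((hω v).comp (s g)) N (c v g) V : ℝ)) ≤ N / cnr n r + C := sorry

/-! ### FBm (as FBg, from `abs_a`) -/

theorem thmB_m {k K : Type u} [Field k] [CharZero k] [Field K] [Algebra k K] {G : Type*} [Group G] [Fintype G]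
    (s : G →* (K ≃ₐ[k] K)) {P : Type*} [Fintype P] (ω : P → K → ℝ) (hω : ∀ v, RV k (ω v)) (c : P → G → ℝ)
    (V : Submodule k K) [FiniteDimensional k V] {n : ℕ} (hn : finrank k V = n + 1)
    (ha : ∀ v g, ∀ x ∈ V, x ≠ 0 → 0 ≤ ω v (s g x) + c v g)
    (hS : ∀ (m : ℕ) (E : Submodule k K), E ≤ (∏ g, V.map (s g).toLinearMap) ^ m → (∀ z ∈ E, ∀ g, s g z = z) →
      ∀ (n : P → ℕ) (z : ∀ v, Fin (n v) → K), (∀ v, LinearIndependent k (z v)) → (∀ v i, z v i ∈ E) →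
        ∑ v, ∑ i, (ω v (z v i) + m * ∑ g, c v g) ≤ m * finrank k E)
    (h1 : ∀ v g, ∃ x ∈ V, x ≠ 0 ∧ ω v (s g x) + c v g = 0)
    (hpf : ∀ x ∈ V, x ≠ 0 → ∑ v, ∑ g, (ω v (s g x) + c v g) ≤ 1)
    (Hs : Subgroup G) (hH : ∀ h ∈ Hs, ∀ x ∈ V, s h x = x) (hcH : ∀ v g, ∀ h ∈ Hs, c v (g * h) = c v g)
    {r : ℕ} (hr : 0 < r) (ρ : Fin r → G) (hρ : ∀ g, ∃! j, (ρ j)⁻¹ * g ∈ Hs)
    {q p : ℕ} (L : Fin q → V) (hL : ∀ i, L i ≠ 0) (hC : Comb k L p) :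
    ∑ v, ∑ g, ∑ i, (ω v (s g (L i)) + c v g) ≤ 1 / cnr n r + 2 * p := sorry

/-! ### GABm (as GABg; `Hs`, `hH` as in `germs_m`) -/

theorem germsB_m {k : Type u} [Field k] [NumberField k] {G : Type} [Group G] [Fintype G] {D : SqG k G} {n : ℕ}
    (x : ∀ a, Fin (n + 1) → D.L a) (hx : Ptg D x) {q : ℕ} (l : Fin q → Fin (n + 1) → k) (hl : ∀ i, l i ∉ vang D x)
    (hC : Comb k (fun i => (vang D x).mkQ (l i)) (finrank k (vang D x))) (P : Finset (Pl k))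
    (Hs : Subgroup G) (hH : ∀ a, ∀ h ∈ Hs, ∀ j, D.s a h (x a j) = x a j)
    {r : ℕ} (hr : 0 < r) (ρ : Fin r → G) (hρ : ∀ g, ∃! j, (ρ j)⁻¹ * g ∈ Hs) {ε : ℝ} (hε : 0 < ε) :
    ∀ᶠ a in (D.U : Filter ℕ), ∑ v ∈ P, ∑ g, ∑ i, (Real.log (mxn (D.N a v) fun j => D.s a g (x a j)) -
      Real.log (D.N a v (D.s a g (lvg (l i) (x a))))) ≤
      (1 / cnr (n - finrank k (vang D x)) r + 2 * finrank k (vang D x) + ε) * D.H a := sorry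

/-! ### FINP (as FINg, from `exists_seq_w` (or `exists_seq` with the subgroup), `germsB_m`, `cnr_shift`) -/

theorem fin_pn {k : Type u} [Field k] [NumberField k] {n q r : ℕ} (hr : 2 ≤ r) (l : Fin q → Fin (n + 1) → k)
    (hl : GenPos l) (S : Finset (Pl k)) {ε : ℝ} (hε : 0 < ε) :
    ∃ (A : Finset (Submodule k (Fin (n + 1) → k))) (C : ℝ), (∀ N ∈ A, Bad l N) ∧
      ∀ x : Fin (n + 1) → AlgebraicClosure k, (∃ j, x j = 1) → dg x ≤ r → (∀ i, val (l i) x ≠ 0) →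
        (∀ N ∈ A, ∃ m ∈ N, val m x ≠ 0) → ∑ ν ∈ S, ∑ i, lam (l i) ν x ≤ (1 / cnr n r + ε) * hgt x + C := sorry

end Pool.Agent.SQ
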