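import Pool.Agent.Helper42.SQ.SNF
import Pool.Agent.Helper67.SQ4.THMm
import Pool.Agent.Helper21.S7.NRM
import Pool.Agent.Helper77.S7.STAR
import Pool.Agent.Helper41.S7.TENV
import Pool.Agent.Helper24.S7.END
import Pool.Agent.Helper24.S7.MON
import Pool.Agent.Helper24.S7.ADP

/-!
# SQ, stage 7, block TALL: `∑ deg ≤ 1 / cnr` for all subspaces
-/

set_option autoImplicit false

namespace Pool.Agent.SQ

open Module

universe u

section

variable {k K : Type*} [Field k] [Field K] [Algebra k K] {ι : Type*} [Fintype ι]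

/-- a subspace of maximal slope -/
private theorem slope21 {ω : ι → K → ℝ} (hω : ∀ i, RV k (ω i)) (c : ι → ℝ) {N : ℕ}
    (hN : 0 < N) (V : Submodule k K) [FiniteDimensional k V] (hV : V ≠ ⊥) :
    ∃ V' ≤ V, V' ≠ ⊥ ∧ ∀ E ≤ V, finrank k V' * ∑ i, SN (hω i) N (c i) E ≤ (∑ i, SN (hω i) N (c i) V') * finrank k E := by
  have hfr : ∀ E ≤ V, E ≠ ⊥ → 0 < finrank k E := by
    intro E hE hE0
    have : FiniteDimensional k E := Submodule.finiteDimensional_of_le hE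
    exact Nat.pos_of_ne_zero fun h => hE0 (Submodule.finrank_eq_zero.1 h)
  have hmono : ∀ E ≤ V, ∑ i, SN (hω i) N (c i) E ≤ ∑ i, SN (hω i) N (c i) V := fun E hE =>
    Finset.sum_le_sum fun i _ => SN_mono (hω i) V hN _ hE
  obtain ⟨R, hR⟩ : ∃ R : Set ℚ, R = {x | ∃ E ≤ V, E ≠ ⊥ ∧ x = ((∑ i, SN (hω i) N (c i) E : ℕ) : ℚ) / finrank k E} := ⟨_, rfl⟩
  have hfin : R.Finite := by
    refine (((Finset.range ((∑ i, SN (hω i) N (c i) V) + 1)) ×ˢ (Finset.range (finrank k V + 1))).finite_toSet.image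
      fun x : ℕ × ℕ => (x.1 : ℚ) / x.2).subset ?_
    rw [hR]
    rintro _ ⟨E, hE, hE0, rfl⟩
    refine ⟨(∑ i, SN (hω i) N (c i) E, finrank k E), ?_, rfl⟩
    rw [Finset.mem_coe, Finset.mem_product, Finset.mem_range, Finset.mem_range]
    exact ⟨Nat.lt_succ_of_le (hmono E hE), Nat.lt_succ_of_le (Submodule.finrank_mono hE)⟩
  have hne : R.Nonempty := ⟨_, by rw [hR]; exact ⟨V, le_rfl, hV, rfl⟩⟩
  obtain ⟨x, hx, hmax⟩ := Set.exists_max_image R id hfin hne
  rw [hR] at hx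
  obtain ⟨V', hV', hV0, rfl⟩ := hx
  refine ⟨V', hV', hV0, fun E hE => ?_⟩
  by_cases hE0 : E = ⊥
  · subst hE0
    rw [Finset.sum_eq_zero fun i _ => SN_bot (hω i) N (c i), mul_zero]
    exact Nat.zero_le _
  have h1 := hmax (((∑ i, SN (hω i) N (c i) E : ℕ) : ℚ) / finrank k E) (by rw [hR]; exact ⟨E, hE, hE0, rfl⟩)
  have h2 : ((∑ i, SN (hω i) N (c i) E : ℕ) : ℚ) / finrank k E ≤ ((∑ i, SN (hω i) N (c i) V' : ℕ) : ℚ) / finrank k V' := h1
  have h3 : (0 : ℚ) < finrank k E := by exact_mod_cast hfr E hE hE0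
  have h4 : (0 : ℚ) < finrank k V' := by exact_mod_cast hfr V' hV' hV0
  rw [div_le_div_iff₀ h3 h4] at h2
  have h5 : (finrank k V' : ℚ) * (∑ i, SN (hω i) N (c i) E : ℕ) ≤ (∑ i, SN (hω i) N (c i) V' : ℕ) * finrank k E := by
    rw [mul_comm]
    exact h2
  exact_mod_cast h5

private theorem fd_pow21 (E : Submodule k K) [FiniteDimensional k E] (m : ℕ) : FiniteDimensional k ↥(E ^ m) := by
  have hfg : (E ^ m).FG := ((Submodule.fg_iff_finiteDimensional E).2 inferInstance).pow m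
  exact (Submodule.fg_iff_finiteDimensional _).1 hfg

private theorem pow_ne_bot21 {E : Submodule k K} (hE : E ≠ ⊥) (m : ℕ) : E ^ m ≠ ⊥ := by
  obtain ⟨z, hz, hz0⟩ := (Submodule.ne_bot_iff E).1 hE
  exact (Submodule.ne_bot_iff _).2 ⟨z ^ m, Submodule.pow_mem_pow E hz m, pow_ne_zero m hz0⟩

private theorem fix_pow21 (τ : K ≃ₐ[k] K) {V : Submodule k K} (hV : ∀ x ∈ V, τ x = x) (m : ℕ) : ∀ x ∈ V ^ m, τ x = x := by
  intro x hx
  induction hx using Submodule.pow_induction_on_left' with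
  | algebraMap a => exact τ.commutes a
  | add x y i hx hy ihx ihy => rw [map_add, ihx, ihy]
  | mem_mul a ha i x hx ih => rw [map_mul, hV a ha, ih]

/-- the values divided by `M` -/
private theorem RV_div21 {ω : K → ℝ} (h : RV k ω) {M : ℝ} (hM : 0 < M) : RV k fun x => ω x / M where
  mul := fun x y hx hy => by
    rw [h.mul x y hx hy, add_div]
  add := fun x y hx hy hxy => by
    rw [min_div_div_right hM.le]
    exact div_le_div_of_nonneg_right (h.add x y hx hy hxy) hM.le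
  alg := fun a ha => by
    rw [h.alg a ha, zero_div]

end

section

variable {k K : Type u} [Field k] [CharZero k] [Field K] [Algebra k K] {G : Type*} [Group G] [Fintype G]
    (s : G →* (K ≃ₐ[k] K)) {P : Type*} [Fintype P] (ω : P → K → ℝ) (hω : ∀ v, RV k (ω v)) (c : P → G → ℝ)

/-- the inequality of `thm_m` for the power `M` of the space -/
private theorem pow_case21 (V : Submodule k K) [FiniteDimensional k V] (hV : V ≠ ⊥)
    (ha : ∀ v g, ∀ x ∈ V, x ≠ 0 → 0 ≤ ω v (s g x) + c v g)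
    (hS : ∀ (m : ℕ) (E : Submodule k K), E ≤ (∏ g, V.map (s g).toLinearMap) ^ m → (∀ z ∈ E, ∀ g, s g z = z) →
      ∀ (n : P → ℕ) (z : ∀ v, Fin (n v) → K), (∀ v, LinearIndependent k (z v)) → (∀ v i, z v i ∈ E) →
        ∑ v, ∑ i, (ω v (z v i) + m * ∑ g, c v g) ≤ m * finrank k E)
    (Hs : Subgroup G) (hH : ∀ h ∈ Hs, ∀ x ∈ V, s h x = x) (hcH : ∀ v g, ∀ h ∈ Hs, c v (g * h) = c v g)
    {r : ℕ} (ρ : Fin r → G) (hρ : ∀ g, ∃! j, (ρ j)⁻¹ * g ∈ Hs) {M : ℕ} (hM : 0 < M) (B : P → Fin r → ℝ) (hB : ∀ v j, 0 ≤ B v j) :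
    (Fintype.card G : ℝ) * ∑ v, ∑ j, ((∫ x in (0 : ℝ)..B v j, pl ((hω v).comp (s (ρ j))) (c v (ρ j)) V M x) -
      (1 - 1 / (r : ℝ)) * B v j) ≤ 1 := by
  classical
  have hM' : (0 : ℝ) < M := by exact_mod_cast hM
  have := fd_pow21 V M
  have hD : 0 < finrank k ↥(V ^ M) := Nat.pos_of_ne_zero fun h => pow_ne_bot21 hV M (Submodule.finrank_eq_zero.1 h)
  have hD' : (0 : ℝ) < finrank k ↥(V ^ M) := by exact_mod_cast hD
  have hG : (0 : ℝ) < Fintype.card G := by exact_mod_cast Fintype.card_pos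
  have hE := fun v j => adp ((hω v).comp (s (ρ j))) (c v (ρ j)) V (ha v (ρ j)) hM
  choose e he1 he2 he3 he4 using hE
  have hSM : ∀ (m : ℕ) (E : Submodule k K), E ≤ (∏ g, (V ^ M).map (s g).toLinearMap) ^ m → (∀ z ∈ E, ∀ g, s g z = z) →
      ∀ (n : P → ℕ) (z : ∀ v, Fin (n v) → K), (∀ v, LinearIndependent k (z v)) → (∀ v i, z v i ∈ E) →
        ∑ v, ∑ i, (ω v (z v i) / M + m * ∑ g, c v g) ≤ m * finrank k E := by
    intro m E hE hfix n z hz hzE
    have h1 : (∏ g, (V ^ M).map (s g).toLinearMap) ^ m = (∏ g, V.map (s g).toLinearMap) ^ (M * m) := by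
      rw [pow_mul]
      congr 1
      rw [← Finset.prod_pow]
      exact Finset.prod_congr rfl fun g _ => map_pow21 (s g) V M
    rw [h1] at hE
    have h2 := hS (M * m) E hE hfix n z hz hzE
    have h3 : ∑ v, ∑ i, (ω v (z v i) / M + m * ∑ g, c v g) = (∑ v, ∑ i, (ω v (z v i) + ((M * m : ℕ) : ℝ) * ∑ g, c v g)) / M := by
      rw [Finset.sum_div]
      refine Finset.sum_congr rfl fun v _ => ?_
      rw [Finset.sum_div]
      refine Finset.sum_congr rfl fun i _ => ?_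
      push_cast
      field_simp
    rw [h3, div_le_iff₀ hM']
    refine h2.trans (le_of_eq ?_)
    push_cast
    ring
  have key := thm_m s (fun v x => ω v x / M) (fun v => RV_div21 (hω v) hM') c (V ^ M)
    (fun v g x hx hx0 => by
      have h1 := nonneg_pow21 ((hω v).comp (s g)) (ha v g) M x hx hx0
      have h2 : 0 ≤ (ω v (s g x) + M * c v g) / M := div_nonneg h1 hM'.le
      have h3 : (ω v (s g x) + M * c v g) / M = ω v (s g x) / M + c v g := by field_simp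
      rwa [h3] at h2)
    hSM Hs (fun h hh x hx => by
      exact fix_pow21 (s h) (hH h hh) M x hx) hcH (fun _ => False) (fun _ => ∅) (fun _ => ∅) (fun _ h => h.elim) ρ hρ (fun _ _ => 0)
    (fun _ _ => Fin.elim0) (fun _ _ => linearIndependent_empty_type) (fun _ _ i => i.elim0) B hB
    (fun _ _ => finrank k ↥(V ^ M)) e he1 he2
  simp only [if_false] at key
  have h1 : ∀ v j, ∑ i, min (B v j) (ω v (s (ρ j) (e v j i)) / M + c v (ρ j)) =
      finrank k ↥(V ^ M) * ∫ x in (0 : ℝ)..B v j, pl ((hω v).comp (s (ρ j))) (c v (ρ j)) V M x := fun v j => he4 v j _ (hB v j)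
  have h2 : ∑ v, (Fintype.card G : ℝ) ^ 2 * ∑ j, (∑ i, min (B v j) (ω v (s (ρ j) (e v j i)) / M + c v (ρ j)) -
        (1 - 1 / (r : ℝ)) * B v j * finrank k ↥(V ^ M)) =
      (Fintype.card G * finrank k ↥(V ^ M)) * ((Fintype.card G : ℝ) * ∑ v, ∑ j, ((∫ x in (0 : ℝ)..B v j,
        pl ((hω v).comp (s (ρ j))) (c v (ρ j)) V M x) - (1 - 1 / (r : ℝ)) * B v j)) := by
    rw [Finset.mul_sum, Finset.mul_sum]
    refine Finset.sum_congr rfl fun v _ => ?_
    rw [Finset.mul_sum, Finset.mul_sum, Finset.mul_sum]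
    refine Finset.sum_congr rfl fun j _ => ?_
    rw [h1]
    ring
  rw [h2] at key
  have h3 : (0 : ℝ) < Fintype.card G * finrank k ↥(V ^ M) := mul_pos hG hD'
  nlinarith

/-- a subspace `V` of maximal slope -/
private theorem ss_case21 (V : Submodule k K) [FiniteDimensional k V] {n : ℕ} (hn : finrank k V = n + 1)
    (ha : ∀ v g, ∀ x ∈ V, x ≠ 0 → 0 ≤ ω v (s g x) + c v g)
    (hS : ∀ (m : ℕ) (E : Submodule k K), E ≤ (∏ g, V.map (s g).toLinearMap) ^ m → (∀ z ∈ E, ∀ g, s g z = z) →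
      ∀ (n : P → ℕ) (z : ∀ v, Fin (n v) → K), (∀ v, LinearIndependent k (z v)) → (∀ v i, z v i ∈ E) →
        ∑ v, ∑ i, (ω v (z v i) + m * ∑ g, c v g) ≤ m * finrank k E)
    (Hs : Subgroup G) (hH : ∀ h ∈ Hs, ∀ x ∈ V, s h x = x) (hcH : ∀ v g, ∀ h ∈ Hs, c v (g * h) = c v g)
    {r : ℕ} (hr : 0 < r) (ρ : Fin r → G) (hρ : ∀ g, ∃! j, (ρ j)⁻¹ * g ∈ Hs) {N : ℕ} (hN : 0 < N)
    (hss : ∀ E ≤ V, (n + 1) * ∑ i : P × Fin r, SN ((hω i.1).comp (s (ρ i.2))) N (c i.1 (ρ i.2)) E ≤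
      (∑ i : P × Fin r, SN ((hω i.1).comp (s (ρ i.2))) N (c i.1 (ρ i.2)) V) * finrank k E) :
    (∑ i : P × Fin r, (SN ((hω i.1).comp (s (ρ i.2))) N (c i.1 (ρ i.2)) V : ℝ)) / (n + 1) ≤
      N * (r / (Fintype.card G * ((n + 1) * cnr n r))) + ((n + 1) * Fintype.card (P × Fin r) + 1) := by
  have hV : V ≠ ⊥ := by
    intro h
    rw [h, finrank_bot] at hn
    omega
  have hG : (0 : ℝ) < Fintype.card G := by exact_mod_cast Fintype.card_pos
  have hN' : (0 : ℝ) < N := by exact_mod_cast hN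
  have hr' : (0 : ℝ) < r := by exact_mod_cast hr
  have hcn : 0 < cnr n r := cnr_pos' hr
  have hn1 : (0 : ℝ) < n + 1 := by positivity
  obtain ⟨θ, hθ, hθ1, hθc⟩ := cnr_eq' (n := n) hr
  have hb := fun (i : P × Fin r) (m : ℕ) (x : K) (hx : x ∈ V ^ m) (hx0 : x ≠ 0) =>
    nrm_le s ω hω c V ha hS i.1 (ρ i.2) m x hx hx0
  obtain ⟨μ, hμ⟩ : ∃ μ : ℝ, μ = (∑ i : P × Fin r, (SN ((hω i.1).comp (s (ρ i.2))) N (c i.1 (ρ i.2)) V : ℝ)) / (n + 1) :=
    ⟨_, rfl⟩
  rw [← hμ]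
  obtain ⟨C0, hC0⟩ : ∃ C0 : ℝ, C0 = ((n + 1) * Fintype.card (P × Fin r) + 1) := ⟨_, rfl⟩
  rw [← hC0]
  -- for all η
  have key : ∀ η : ℝ, 0 < η → (Fintype.card G : ℝ) * ((cnr n r / r) * ((n + 1) * ((μ - C0) / N)) -
      Fintype.card (P × Fin r) * (η * (n + 3))) ≤ 1 := by
    intro η hη
    obtain ⟨a, M, ha0, hM0, hst⟩ := star V hn hη
    obtain ⟨I, hI⟩ : ∃ I : P × Fin r → ℝ, I = fun i => ∫ x in (0 : ℝ)..1,
      pl ((hω i.1).comp (s (ρ i.2))) (c i.1 (ρ i.2)) V a x := ⟨_, rfl⟩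
    have hten := tenv (fun (i : P × Fin r) (x : K) => ω i.1 (s (ρ i.2) x)) (fun i => (hω i.1).comp (s (ρ i.2)))
      (fun i => c i.1 (ρ i.2)) V hn hN (fun i x hx hx0 => ha i.1 (ρ i.2) x hx hx0) hb hss ha0
    have hten' : μ ≤ N * (∑ i, I i) + C0 := by
      rw [hμ, hC0, hI]
      exact hten
    have hf := fun i : P × Fin r => pl_facts ((hω i.1).comp (s (ρ i.2))) (c i.1 (ρ i.2)) V hV
      (fun x hx hx0 => ha i.1 (ρ i.2) x hx hx0) ha0
    have hfM := fun i : P × Fin r => pl_facts ((hω i.1).comp (s (ρ i.2))) (c i.1 (ρ i.2)) V hV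
      (fun x hx hx0 => ha i.1 (ρ i.2) x hx hx0) hM0
    have hI0 : ∀ i, 0 ≤ I i := by
      intro i
      rw [hI]
      exact intervalIntegral.integral_nonneg zero_le_one fun x _ => (hf i).2.1 x
    have hend : ∀ i, ((n + 1) * I i) * Eq n θ - η * (n + 3) ≤
        ∫ x in (0 : ℝ)..(θ * ((n + 1) * I i)), pl ((hω i.1).comp (s (ρ i.2))) (c i.1 (ρ i.2)) V M x := by
      intro i
      rw [hI]
      exact end_real n hη.le _ _ (hf i).1 (hfM i).1 (hf i).2.1 (hf i).2.2.1 (hfM i).2.1 (hfM i).2.2.1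
        ((hf i).2.2.2.2 1 fun x hx hx0 => by
          rw [mul_one]
          exact hb i a x hx hx0)
        (hst _ _ _ (fun x hx hx0 => ha i.1 (ρ i.2) x hx hx0) fun m x hx hx0 => hb i m x hx hx0) hθ hθ1
    have hpow := pow_case21 s ω hω c V hV ha hS Hs hH hcH ρ hρ hM0 (fun v j => θ * ((n + 1) * I (v, j)))
      fun v j => mul_nonneg hθ (mul_nonneg hn1.le (hI0 _))
    refine le_trans (mul_le_mul_of_nonneg_left ?_ hG.le) hpow
    have h1 : (cnr n r / r) * ((n + 1) * ((μ - C0) / N)) ≤ (cnr n r / r) * ((n + 1) * ∑ i, I i) := by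
      have h2 : (μ - C0) / N ≤ ∑ i, I i := by
        rw [div_le_iff₀ hN']
        linarith
      have h3 : 0 ≤ cnr n r / r := (div_pos hcn hr').le
      exact mul_le_mul_of_nonneg_left (mul_le_mul_of_nonneg_left h2 hn1.le) h3
    have h4 : ∑ i : P × Fin r, (((n + 1) * I i) * (cnr n r / r) - η * (n + 3)) ≤
        ∑ v, ∑ j, ((∫ x in (0 : ℝ)..θ * ((n + 1) * I (v, j)), pl ((hω v).comp (s (ρ j))) (c v (ρ j)) V M x) -
          (1 - 1 / (r : ℝ)) * (θ * ((n + 1) * I (v, j)))) := by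
      rw [Fintype.sum_prod_type]
      refine Finset.sum_le_sum fun v _ => Finset.sum_le_sum fun j _ => ?_
      have h5 := hend (v, j)
      have h6 : ((n + 1) * I (v, j)) * (cnr n r / r) = ((n + 1) * I (v, j)) * Eq n θ -
          (1 - 1 / (r : ℝ)) * (θ * ((n + 1) * I (v, j))) := by
        rw [← hθc]
        field_simp
      rw [h6]
      linarith
    refine le_trans ?_ h4
    rw [Finset.sum_sub_distrib, ← Finset.sum_mul, ← Finset.mul_sum, Finset.sum_const, Finset.card_univ, nsmul_eq_mul]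
    linarith
  have hfin : (Fintype.card G : ℝ) * ((cnr n r / r) * ((n + 1) * ((μ - C0) / N))) ≤ 1 := by
    refine le_of_forall_pos_le_add fun ε hε => ?_
    have h1 : (0 : ℝ) < Fintype.card G * (Fintype.card (P × Fin r) * (n + 3)) + 1 := by positivity
    have h2 := key (ε / (Fintype.card G * (Fintype.card (P × Fin r) * (n + 3)) + 1)) (div_pos hε h1)
    have h3 : (Fintype.card G : ℝ) * (Fintype.card (P × Fin r) *
        (ε / (Fintype.card G * (Fintype.card (P × Fin r) * (n + 3)) + 1) * (n + 3))) ≤ ε := by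
      have h4 : (Fintype.card G : ℝ) * (Fintype.card (P × Fin r) *
        (ε / (Fintype.card G * (Fintype.card (P × Fin r) * (n + 3)) + 1) * (n + 3))) =
          (Fintype.card G * (Fintype.card (P × Fin r) * (n + 3))) * ε /
            (Fintype.card G * (Fintype.card (P × Fin r) * (n + 3)) + 1) := by ring
      rw [h4, div_le_iff₀ h1]
      nlinarith
    rw [mul_sub] at h2
    linarith
  have h5 : μ - C0 ≤ N * (r / (Fintype.card G * ((n + 1) * cnr n r))) := by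
    have h6 : (Fintype.card G : ℝ) * ((cnr n r / r) * ((n + 1) * ((μ - C0) / N))) =
        (μ - C0) / (N * (r / (Fintype.card G * ((n + 1) * cnr n r)))) := by
      field_simp
    rw [h6, div_le_one (by positivity)] at hfin
    exact hfin
  linarith

theorem abs_a (V : Submodule k K) [FiniteDimensional k V] {n : ℕ} (hn : finrank k V = n + 1)
    (ha : ∀ v g, ∀ x ∈ V, x ≠ 0 → 0 ≤ ω v (s g x) + c v g)
    (hS : ∀ (m : ℕ) (E : Submodule k K), E ≤ (∏ g, V.map (s g).toLinearMap) ^ m → (∀ z ∈ E, ∀ g, s g z = z) →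
      ∀ (n : P → ℕ) (z : ∀ v, Fin (n v) → K), (∀ v, LinearIndependent k (z v)) → (∀ v i, z v i ∈ E) →
        ∑ v, ∑ i, (ω v (z v i) + m * ∑ g, c v g) ≤ m * finrank k E)
    (Hs : Subgroup G) (hH : ∀ h ∈ Hs, ∀ x ∈ V, s h x = x) (hcH : ∀ v g, ∀ h ∈ Hs, c v (g * h) = c v g)
    {r : ℕ} (hr : 0 < r) (ρ : Fin r → G) (hρ : ∀ g, ∃! j, (ρ j)⁻¹ * g ∈ Hs) :
    ∃ C : ℝ, ∀ N : ℕ, 0 < N → (∑ v, ∑ g, (SN ((hω v).comp (s g)) N (c v g) V : ℝ)) ≤ N / cnr n r + C := by
  classical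
  have hG : (0 : ℝ) < Fintype.card G := by exact_mod_cast Fintype.card_pos
  have hr' : (0 : ℝ) < r := by exact_mod_cast hr
  have hcn : 0 < cnr n r := cnr_pos' hr
  have hn1 : (0 : ℝ) < n + 1 := by positivity
  have hV : V ≠ ⊥ := by
    intro h
    rw [h, finrank_bot] at hn
    omega
  have hHs : (0 : ℝ) < Nat.card Hs := by exact_mod_cast Nat.card_pos
  -- the order of the group
  have hcard : (Fintype.card G : ℝ) = Nat.card Hs * r := by
    have h1 := coset21 Hs ρ hρ (fun _ => (1 : ℝ)) fun _ _ _ => rfl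
    simpa using h1
  refine ⟨Nat.card Hs * ((n + 1) * ((n + 1) * Fintype.card (P × Fin r) + 1)), fun N hN => ?_⟩
  have hN' : (0 : ℝ) < N := by exact_mod_cast hN
  -- the sum over the group
  have hsum : ∀ v, (∑ g, (SN ((hω v).comp (s g)) N (c v g) V : ℝ)) =
      Nat.card Hs * ∑ j, (SN ((hω v).comp (s (ρ j))) N (c v (ρ j)) V : ℝ) := by
    intro v
    refine coset21 Hs ρ hρ (fun g => (SN ((hω v).comp (s g)) N (c v g) V : ℝ)) fun j h hh => ?_
    have h1 : ∀ b, V ⊓ lev ((hω v).comp (s (ρ j * h))) b = V ⊓ lev ((hω v).comp (s (ρ j))) b := by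
      intro b
      ext x
      rw [Submodule.mem_inf, Submodule.mem_inf]
      refine and_congr_right fun hx => ?_
      have h2 : s (ρ j * h) x = s (ρ j) x := by
        rw [map_mul]
        show s (ρ j) (s h x) = _
        rw [hH h hh x hx]
      show (x = 0 ∨ b ≤ ω v (s (ρ j * h) x)) ↔ (x = 0 ∨ b ≤ ω v (s (ρ j) x))
      rw [h2]
    have h3 : SN ((hω v).comp (s (ρ j * h))) N (c v (ρ j * h)) V = SN ((hω v).comp (s (ρ j))) N (c v (ρ j)) V := by
      unfold SN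
      rw [hcH v (ρ j) h hh]
      exact finsum_congr fun i => by rw [h1]
    show ((SN ((hω v).comp (s (ρ j * h))) N (c v (ρ j * h)) V : ℕ) : ℝ) = _
    rw [h3]
  have hsum' : (∑ v, ∑ g, (SN ((hω v).comp (s g)) N (c v g) V : ℝ)) =
      Nat.card Hs * ∑ i : P × Fin r, (SN ((hω i.1).comp (s (ρ i.2))) N (c i.1 (ρ i.2)) V : ℝ) := by
    rw [Finset.sum_congr rfl fun v _ => hsum v, ← Finset.mul_sum, Fintype.sum_prod_type]
  rw [hsum']
  -- the maximal slope
  obtain ⟨V', hV', hV0, hmax⟩ := slope21 (fun i : P × Fin r => (hω i.1).comp (s (ρ i.2))) (fun i => c i.1 (ρ i.2)) hN V hV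
  have : FiniteDimensional k V' := Submodule.finiteDimensional_of_le hV'
  obtain ⟨n', hn'⟩ : ∃ n', finrank k V' = n' + 1 := by
    have h1 : 0 < finrank k V' := Nat.pos_of_ne_zero fun h => hV0 (Submodule.finrank_eq_zero.1 h)
    exact ⟨finrank k V' - 1, by omega⟩
  have hnn : n' ≤ n := by
    have h1 : finrank k V' ≤ finrank k V := Submodule.finrank_mono hV'
    omega
  have hle : ∀ m : ℕ, (∏ g, V'.map (s g).toLinearMap) ^ m ≤ (∏ g, V.map (s g).toLinearMap) ^ m := by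
    intro m
    refine pow_le_pow_left' ?_ m
    exact Finset.prod_le_prod' fun g _ => Submodule.map_mono hV'
  have h1 := ss_case21 s ω hω c V' hn' (fun v g x hx hx0 => ha v g x (hV' hx) hx0)
    (fun m E hE hf n z hz hzE => hS m E (hE.trans (hle m)) hf n z hz hzE) Hs (fun h hh x hx => hH h hh x (hV' hx)) hcH hr ρ hρ
    hN (fun E hE => by
      have h2 := hmax E (hE.trans hV')
      rw [hn'] at h2
      exact_mod_cast h2)
  have h2 := hmax V le_rfl
  rw [hn, hn'] at h2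
  obtain ⟨T, hT⟩ : ∃ T : ℝ, T = ∑ i : P × Fin r, (SN ((hω i.1).comp (s (ρ i.2))) N (c i.1 (ρ i.2)) V : ℝ) := ⟨_, rfl⟩
  obtain ⟨T', hT'⟩ : ∃ T' : ℝ, T' = ∑ i : P × Fin r, (SN ((hω i.1).comp (s (ρ i.2))) N (c i.1 (ρ i.2)) V' : ℝ) := ⟨_, rfl⟩
  have h3 : ((n' : ℝ) + 1) * T ≤ T' * (n + 1) := by
    rw [hT, hT']
    exact_mod_cast h2
  rw [← hT'] at h1
  rw [← hT]
  have hn1' : (0 : ℝ) < n' + 1 := by positivity
  have h4 : T ≤ (n + 1) * (T' / (n' + 1)) := by
    rw [mul_div_assoc', le_div_iff₀ hn1']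
    linarith
  have h5 : (n + 1) * cnr n r ≤ (n' + 1) * cnr n' r := cnr_anti hr hnn
  have h6 : (r : ℝ) / (Fintype.card G * ((n' + 1) * cnr n' r)) ≤ r / (Fintype.card G * ((n + 1) * cnr n r)) := by
    gcongr
  have h7 : ((n' : ℝ) + 1) * Fintype.card (P × Fin r) + 1 ≤ (n + 1) * Fintype.card (P × Fin r) + 1 := by
    gcongr
  have h8 : T ≤ (n + 1) * (N * (r / (Fintype.card G * ((n + 1) * cnr n r))) + ((n + 1) * Fintype.card (P × Fin r) + 1)) := by
    refine h4.trans (mul_le_mul_of_nonneg_left ?_ hn1.le)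
    refine h1.trans (add_le_add ?_ h7)
    exact mul_le_mul_of_nonneg_left h6 hN'.le
  have h9 := mul_le_mul_of_nonneg_left h8 hHs.le
  refine h9.trans (le_of_eq ?_)
  rw [hcard]
  field_simp

end

end Pool.Agent.SQ
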